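import Pool.Agent.J6H32.RT.MainK

/-!
# MP_dd9835_nt: Rubin's conjecture for all `T` and the field of the sets `{v}`

Let `H / F` be a finite abelian extension of number fields with group `G`, `S` a finite set of
places of `F` which contains the archimedean and the ramified ones, `v_1, ..., v_r` the places of
`S` which split completely, `#S ≥ r + 1`, `w_i` a place over `v_i` (`RubinData`). `Rubin T` is the
statement of Q1 for the set `T` of prime ideals, `Stark T` the rational conjecture of Stark.

Suppose that the rational conjecture is true. There are a finite Galois extension `K / F`, with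
metabelian Galois group, and a finite set `bad` of prime ideals such that

* for `v ∉ bad` Rubin's conjecture for `{v}` is true if and only if `v` splits completely in `K`;
* for all sets `T₀` of prime ideals disjoint from `S` and all sets `T` disjoint from `T₀` and `bad`
  the truth of Rubin's conjecture for `T₀ ∪ T` depends only on `T₀` and on the Frobenius classes in
  `Gal(K/F)` of the elements of `T`;
* for all `T₀` there is a normal subgroup `Γ'` of `Gal(K/F)` such that, for `v ∉ bad ∪ T₀`, Rubin's
  conjecture for `T₀ ∪ {v}` is true if and only if the Frobenius class of `v` is in `Γ'`.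
-/

set_option autoImplicit false

open NumberField IsDedekindDomain commutatorElement

noncomputable section

namespace Pool.Agent.Results.MP_dd9835_nt.FrobeniusClasses

open Pool.Agent.K3h30.RS

/-- `τ` is the Frobenius automorphism at the prime ideal `q` of `K` over `v`: `q ∩ 𝓞 F = v` and
`τ x - x ^ (N v)` is in `q` for all integers `x` of `K`. -/
def Frob {F K : Type} [Field F] [NumberField F] [Field K] [NumberField K] [Algebra F K]
    (v : HeightOneSpectrum (𝓞 F)) (q : HeightOneSpectrum (𝓞 K)) (τ : K ≃ₐ[F] K) : Prop :=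
  q.asIdeal.comap (algebraMap (𝓞 F) (𝓞 K)) = v.asIdeal ∧
    ∀ x : 𝓞 K, q.valuation K (τ (x : K) - (x : K) ^ (Ideal.absNorm v.asIdeal)) < 1

/-- `v` and `v'` have the same Frobenius class in `K`. -/
def SameClass {F : Type} [Field F] [NumberField F] (K : Type) [Field K] [NumberField K]
    [Algebra F K] (v v' : HeightOneSpectrum (𝓞 F)) : Prop :=
  ∃ (τ : K ≃ₐ[F] K) (q q' : HeightOneSpectrum (𝓞 K)), Frob v q τ ∧ Frob v' q' τ

open Classical in
/-- Rubin's conjecture for `T₀ ∪ T` and the Frobenius classes of the elements of `T`. -/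
theorem result {F H G : Type} [Field F] [NumberField F] [Field H] [NumberField H] [Algebra F H]
    [CommGroup G] [Finite G] [MulSemiringAction G H] [IsGaloisGroup G F H]
    (D : RubinData F H G) :
    (∀ T : Finset (HeightOneSpectrum (𝓞 F)), Disjoint D.S T → ¬ D.Stark T) ∨
    ∃ (K : Type) (_ : Field K) (_ : NumberField K) (_ : Algebra F K) (_ : IsGalois F K)
      (bad : Finset (HeightOneSpectrum (𝓞 F))),
      (∀ a b c d : K ≃ₐ[F] K, ⁅⁅a, b⁆, ⁅c, d⁆⁆ = 1) ∧
      (∀ v : HeightOneSpectrum (𝓞 F), v ∉ bad → (D.Rubin {v} ↔ SplitsIn K v)) ∧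
      ∀ T₀ : Finset (HeightOneSpectrum (𝓞 F)), Disjoint D.S T₀ →
        (∀ T T' : Finset (HeightOneSpectrum (𝓞 F)), (∀ v ∈ T ∪ T', v ∉ bad ∧ v ∉ T₀) →
          ∀ e : T ≃ T', (∀ v : T, SameClass K (v : HeightOneSpectrum (𝓞 F)) (e v)) →
            (D.Rubin (T₀ ∪ T) ↔ D.Rubin (T₀ ∪ T'))) ∧
        ∃ Γ' : Subgroup (K ≃ₐ[F] K), Γ'.Normal ∧ ∀ v : HeightOneSpectrum (𝓞 F),
          v ∉ bad → v ∉ T₀ → ∀ (q : HeightOneSpectrum (𝓞 K)) (τ : K ≃ₐ[F] K), Frob v q τ →
            (D.Rubin (insert v T₀) ↔ τ ∈ Γ') := by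
  rw [or_iff_not_imp_left]
  intro hS
  push Not at hS
  obtain ⟨T₁, -, hT₁⟩ := hS
  exact Pool.Agent.J6H32.RT.mainK D hT₁

end Pool.Agent.Results.MP_dd9835_nt.FrobeniusClasses
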