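import Pool.Agent.J6H32.RU.Fin

/-!
# MP_dd9835_nt: the field which controls Rubin's conjecture for the sets `T₀ ∪ {v}`

Let `H / F` be a finite abelian extension of number fields with group `G`, `S` a finite set of
places of `F` which contains the archimedean and the ramified ones, `v_1, ..., v_r` the places of
`S` which split completely, `#S ≥ r + 1`, `w_i` a place over `v_i` (`RubinData`). `Rubin T` is the
statement of Q1 for the set `T` of prime ideals, `Stark T` the rational conjecture of Stark,
`Allowed T` the condition on `T`.

Suppose that the rational conjecture is true. For every finite set `T₀` of prime ideals, disjoint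
from `S`, there is a finite Galois extension `K / F` such that for all but finitely many prime
ideals `v` of `F` Rubin's conjecture for `T₀ ∪ {v}` is true if and only if `v` splits completely in
`K`. The density of these `v` is `1 / [K : F]`. For `T₀ = ∅` the conjecture holds for all `T` which
contain a `v` outside a finite set which splits completely in `K`, and for all admissible `T` if and
only if `K = F`.
-/

set_option autoImplicit false

open NumberField IsDedekindDomain Filter Topology

noncomputable section

namespace Pool.Agent.Results.MP_dd9835_nt.ObstructionField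

open Pool.Agent.K3h30.RS Pool.Agent.J6H32.RU

open Classical in
/-- Rubin's conjecture for `T₀ ∪ {v}` and the decomposition of `v` in a Galois extension. -/
theorem result {F H G : Type} [Field F] [NumberField F] [Field H] [NumberField H] [Algebra F H]
    [CommGroup G] [Finite G] [MulSemiringAction G H] [IsGaloisGroup G F H]
    (D : RubinData F H G) :
    (∀ T : Finset (HeightOneSpectrum (𝓞 F)), Disjoint D.S T → ¬ D.Stark T) ∨
    ∀ T₀ : Finset (HeightOneSpectrum (𝓞 F)), Disjoint D.S T₀ →
      ∃ (K : Type) (_ : Field K) (_ : NumberField K) (_ : Algebra F K) (_ : IsGalois F K)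
        (bad : Finset (HeightOneSpectrum (𝓞 F))),
        (∀ v : HeightOneSpectrum (𝓞 F), v ∉ bad → (D.Rubin (insert v T₀) ↔ SplitsIn K v)) ∧
        Tendsto (fun X : ℕ => (Nat.card {v : HeightOneSpectrum (𝓞 F) //
          D.Rubin (insert v T₀) ∧ Ideal.absNorm v.asIdeal ≤ X} : ℝ) / (Nat.primeCounting X : ℝ))
          atTop (𝓝 (1 / (Module.finrank F K : ℝ))) ∧
        (T₀ = ∅ →
          (∀ v : HeightOneSpectrum (𝓞 F), v ∉ bad → SplitsIn K v →
            ∀ T : Finset (HeightOneSpectrum (𝓞 F)), Disjoint D.S T → v ∈ T → D.Rubin T) ∧
          ((∀ T : Finset (HeightOneSpectrum (𝓞 F)), D.Allowed T → D.Rubin T) ↔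
            Module.finrank F K = 1)) := by
  rw [or_iff_not_imp_left]
  intro hS T₀ hT₀
  push Not at hS
  obtain ⟨T₁, -, hT₁⟩ := hS
  obtain ⟨K, i1, i2, i3, i4, bad, h1, h2, h3⟩ := main_gen D hT₁ T₀ hT₀
  obtain ⟨fin, hfin⟩ := allowed_single D
  refine ⟨K, i1, i2, i3, i4, bad ∪ fin, ?_, h2, ?_⟩
  · intro v hv
    rw [Finset.mem_union, not_or] at hv
    exact h1 v hv.1
  · rintro rfl
    constructor
    · intro v hv hs T hT hvT
      rw [Finset.mem_union, not_or] at hv
      have h4 : D.Rubin {v} := (h1 v hv.1).2 hs
      exact rubin_mono D v (hfin v hv.2).2.1 (hfin v hv.2).2.2 h4 T hT hvT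
    · rw [h3]
      constructor
      · intro h
        exact ⟨fin, fun v hv => h _ (hfin v hv).1⟩
      · rintro ⟨fin', h⟩
        exact all_of_almost D fin' h

end Pool.Agent.Results.MP_dd9835_nt.ObstructionField
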