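import Pool.Agent.J6H32.SR.OneC

/-!
# MP_dd9835_nt, `r = 1`: a quarter of the prime ideals

Let `H / F` be a finite abelian extension of number fields with group `G`, `S` a finite set of
places of `F` which contains the archimedean and the ramified ones and exactly one place which
splits completely, `#S ≥ 2` (`RubinData` with `r = 1`). `Rubin T` is the statement of Q1 for the set `T` of
prime ideals, `Stark T` the rational conjecture of Stark, `Allowed T` the condition on `T`. So for
`r = 1` the question is the rank one abelian conjecture of Stark, for all base fields `F` and all `S`.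

For `σ` in `G` let `d σ` be the density, among the prime ideals `v` outside `S` with Frobenius
automorphism `σ`, of those for which `Rubin {v}` is true.

Theorem. `Rubin T` is true for all admissible `T` if and only if `Rubin {v}` is true for more than a
quarter of all prime ideals `v`; if `A` is a nonempty subset of `G` with a cyclic quotient `G / ⟨A⟩`, for
example `A = {1}` for a cyclic group `G`, this is the case if and only if `d σ > 1/2` for all `σ` in `A`.
More precisely, either the rational conjecture is false for all `T`, or there are a finite Galois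
extension `K / F` and a finite set of prime ideals outside of which `Rubin {v}` is true exactly for the
`v` which split completely in `K`; then `Rubin T` is true for all admissible `T` if and only if `K = F`,
and `K / F` is not cyclic for `K ≠ F`. The numbers `d σ` exist; they are all zero, or `1/n` for the `σ` in
a subgroup of `G` and `0` for the others, `n` a positive integer.
-/

set_option autoImplicit false

open NumberField IsDedekindDomain Filter Topology

noncomputable section

namespace Pool.Agent.Results.MP_dd9835_nt.RankOneQuarter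

open Pool.Agent.K3h30.RS Pool.Agent.J6H32.RU Pool.Agent.J6H32.SR

/-- The number of the prime ideals of norm at most `X` with the property `P`, divided by the number of
the prime numbers up to `X`. -/
def proportion {F : Type} [Field F] [NumberField F]
    (P : HeightOneSpectrum (𝓞 F) → Prop) (X : ℕ) : ℝ :=
  (Nat.card {v : HeightOneSpectrum (𝓞 F) // P v ∧ Ideal.absNorm v.asIdeal ≤ X} : ℝ) /
    (Nat.primeCounting X : ℝ)

/-- `v` is not in `S` and its Frobenius automorphism is `σ`. -/
def Symbol {F H G : Type} [Field F] [NumberField F] [Field H] [NumberField H] [Algebra F H]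
    [CommGroup G] [Finite G] [MulSemiringAction G H] (D : RubinData F H G) (σ : G)
    (v : HeightOneSpectrum (𝓞 F)) : Prop :=
  v ∉ D.S ∧ D.σ v = σ

theorem result {F H G : Type} [Field F] [NumberField F] [Field H] [NumberField H] [Algebra F H]
    [CommGroup G] [Finite G] [MulSemiringAction G H] [IsGaloisGroup G F H]
    (D : RubinData F H G) (hr : D.r = 1) :
    -- more than a quarter of the prime ideals
    ((∀ T : Finset (HeightOneSpectrum (𝓞 F)), D.Allowed T → D.Rubin T) ↔
      ∃ c : ℝ, 1 / 4 < c ∧ ∀ᶠ X : ℕ in atTop, c ≤ proportion (fun v => D.Rubin {v}) X) ∧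
    -- the prime ideals with given Frobenius automorphisms
    (∃ d : G → ℝ,
      (∀ σ : G, Tendsto (proportionIn (Symbol D σ) (fun v => D.Rubin {v})) atTop (𝓝 (d σ))) ∧
      (∀ A : Set G, A.Nonempty → IsCyclic (G ⧸ Subgroup.closure A) →
        ((∀ T : Finset (HeightOneSpectrum (𝓞 F)), D.Allowed T → D.Rubin T) ↔
          ∀ σ ∈ A, 1 / 2 < d σ)) ∧
      ((∀ σ : G, d σ = 0) ∨ ∃ (B : Subgroup G) (n : ℕ), 0 < n ∧
        (∀ σ ∈ B, d σ = 1 / n) ∧ ∀ σ : G, σ ∉ B → d σ = 0)) ∧
    -- the field
    ((∀ T : Finset (HeightOneSpectrum (𝓞 F)), Disjoint D.S T → ¬ D.Stark T) ∨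
      ∃ (K : Type) (_ : Field K) (_ : NumberField K) (_ : Algebra F K) (_ : IsGalois F K)
        (bad : Finset (HeightOneSpectrum (𝓞 F))),
        (∀ v : HeightOneSpectrum (𝓞 F), v ∉ bad → (D.Rubin {v} ↔ SplitsIn K v)) ∧
        Tendsto (proportion (fun v => D.Rubin {v})) atTop (𝓝 (1 / (Module.finrank F K : ℝ))) ∧
        ((∀ T : Finset (HeightOneSpectrum (𝓞 F)), D.Allowed T → D.Rubin T) ↔
          Module.finrank F K = 1) ∧
        (IsCyclic (K ≃ₐ[F] K) → Module.finrank F K = 1)) := by
  classical
  obtain ⟨fin, hfin⟩ := allowed_single D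
  by_cases hS : ∀ T : Finset (HeightOneSpectrum (𝓞 F)), Disjoint D.S T → ¬ D.Stark T
  · have hno : ∀ v : HeightOneSpectrum (𝓞 F), v ∉ D.S → ¬ D.Rubin {v} := by
      rintro v hv ⟨u, e, -, s⟩
      exact hS {v} (Finset.disjoint_singleton_right.2 hv) ⟨u, e, s⟩
    have hall : ¬ ∀ T : Finset (HeightOneSpectrum (𝓞 F)), D.Allowed T → D.Rubin T := by
      intro h
      obtain ⟨v, hv, -⟩ := exists_frobAt (F := F) (L := F) 1 fin
      exact hno v (hfin v hv).2.1 (h {v} (hfin v hv).1)
    have hlim : Tendsto (proportion (fun v => D.Rubin {v})) atTop (𝓝 0) := by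
      have h1 := Pool.Agent.J6H32.RT.density_set (F := F) (L := F) ∅
        (fun g hg h => absurd hg (Set.notMem_empty g)) (bad := D.S) (R := fun v => D.Rubin {v})
        (fun v hv Q g _ => ⟨fun h => absurd h (hno v hv), fun h => absurd h (Set.notMem_empty g)⟩)
      rw [Set.ncard_empty, Nat.cast_zero, zero_div] at h1
      exact h1
    refine ⟨⟨fun h => absurd h hall, ?_⟩, ?_, Or.inl hS⟩
    · rintro ⟨c, hc, hX⟩
      exfalso
      have h1 := ge_of_tendsto hlim hX
      linarith
    · refine ⟨fun _ => 0, fun σ => ?_, fun A hA _ => ⟨fun h => absurd h hall, fun h => ?_⟩,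
        Or.inl fun _ => rfl⟩
      · refine tendsto_const_nhds.congr fun X => ?_
        have h3 : IsEmpty {v : HeightOneSpectrum (𝓞 F) //
            (Symbol D σ v ∧ D.Rubin {v}) ∧ Ideal.absNorm v.asIdeal ≤ X} :=
          ⟨fun x => hno x.1 x.2.1.1.1 x.2.1.2⟩
        unfold proportionIn
        rw [Nat.card_of_isEmpty, Nat.cast_zero, zero_div]
      · obtain ⟨σ, hσ⟩ := hA
        have h1 := h σ hσ
        norm_num at h1
  · push Not at hS
    obtain ⟨T₁, -, hT₁⟩ := hS
    obtain ⟨K, i1, i2, i3, i4, bad, h1, h2, h3, h4, h5, d, h6, h7, h8⟩ := one_main D hr hT₁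
    have hall : (∀ T : Finset (HeightOneSpectrum (𝓞 F)), D.Allowed T → D.Rubin T) ↔
        Module.finrank F K = 1 := by
      rw [h3]
      constructor
      · intro h
        exact ⟨fin, fun v hv => h _ (hfin v hv).1⟩
      · rintro ⟨fin', h⟩
        exact all_of_almost D fin' h
    refine ⟨?_, ⟨d, h6, fun A hA hcyc => hall.trans (h7 A hA hcyc), Or.inr h8⟩,
      Or.inr ⟨K, i1, i2, i3, i4, bad, h1, h2, hall, h4⟩⟩
    rw [hall]
    constructor
    · intro h
      rw [h, Nat.cast_one, div_one] at h2
      exact ⟨1 / 2, by norm_num, h2.eventually_const_le (by norm_num)⟩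
    · rintro ⟨c, hc, hX⟩
      rcases h5 with h5 | h5
      · exact h5
      · exfalso
        have h6 := ge_of_tendsto h2 hX
        have h7 : (1 : ℝ) / (Module.finrank F K : ℝ) ≤ 1 / 4 := by
          apply one_div_le_one_div_of_le (by norm_num)
          exact_mod_cast h5
        linarith

end Pool.Agent.Results.MP_dd9835_nt.RankOneQuarter
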