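import Pool.Agent.J6H32.RT.MainD

/-!
# MP_dd9835_nt: the proportion of the sets with `m` elements for which Rubin's conjecture is true

Let `H / F` be a finite abelian extension of number fields with group `G`, `S` a finite set of
places of `F` which contains the archimedean and the ramified ones, `v_1, ..., v_r` the places of
`S` which split completely, `#S ≥ r + 1`, `w_i` a place over `v_i` (`RubinData`). `Rubin T` is the
statement of Q1 for the set `T` of prime ideals, `Stark T` the rational conjecture of Stark.

Suppose that the rational conjecture is true. Let `K / F` be the finite Galois extension such that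
for almost all `v` Rubin's conjecture for `{v}` is true if and only if `v` splits completely in `K`,
and `d = [K : F]`. For every finite set `T₀` of prime ideals disjoint from `S` and every `m` the
proportion of the sets `T` with `Rubin (T₀ ∪ T)` among all sets of `m` prime ideals of norm at most
`X` has a limit for `X → ∞`. The limit is `a / d ^ m` for an integer `a`, and at least
`1 - (1 - 1 / d) ^ m`.
-/

set_option autoImplicit false

open NumberField IsDedekindDomain Filter Topology

noncomputable section

namespace Pool.Agent.Results.MP_dd9835_nt.SetDensities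

open Pool.Agent.K3h30.RS

open Classical in
/-- The sets of `m` prime ideals and Rubin's conjecture. -/
theorem result {F H G : Type} [Field F] [NumberField F] [Field H] [NumberField H] [Algebra F H]
    [CommGroup G] [Finite G] [MulSemiringAction G H] [IsGaloisGroup G F H]
    (D : RubinData F H G) :
    (∀ T : Finset (HeightOneSpectrum (𝓞 F)), Disjoint D.S T → ¬ D.Stark T) ∨
    ∃ (K : Type) (_ : Field K) (_ : NumberField K) (_ : Algebra F K) (_ : IsGalois F K)
      (bad : Finset (HeightOneSpectrum (𝓞 F))),
      (∀ v : HeightOneSpectrum (𝓞 F), v ∉ bad → (D.Rubin {v} ↔ SplitsIn K v)) ∧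
      ∀ T₀ : Finset (HeightOneSpectrum (𝓞 F)), Disjoint D.S T₀ → ∀ m : ℕ, ∃ a : ℕ,
        Tendsto (fun X : ℕ => (Nat.card {T : Finset (HeightOneSpectrum (𝓞 F)) //
            T.card = m ∧ (∀ v ∈ T, Ideal.absNorm v.asIdeal ≤ X) ∧ D.Rubin (T₀ ∪ T)} : ℝ) /
          (Nat.card {T : Finset (HeightOneSpectrum (𝓞 F)) //
            T.card = m ∧ ∀ v ∈ T, Ideal.absNorm v.asIdeal ≤ X} : ℝ)) atTop
          (𝓝 ((a : ℝ) / (Module.finrank F K : ℝ) ^ m)) ∧
        1 - (1 - 1 / (Module.finrank F K : ℝ)) ^ m ≤ (a : ℝ) / (Module.finrank F K : ℝ) ^ m := by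
  rw [or_iff_not_imp_left]
  intro hS
  push Not at hS
  obtain ⟨T₁, -, hT₁⟩ := hS
  exact Pool.Agent.J6H32.RT.mainD D hT₁

end Pool.Agent.Results.MP_dd9835_nt.SetDensities
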